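import Pool.Agent.Q62.FS.Stm

/-! Project FS: FS1. -/

set_option autoImplicit false

namespace Pool.Agent.Q137.FS

open Filter Topology Set Pool.Agent.Q62.FS

theorem sumV {l : ℕ → ℝ} (h : Hyp l) (x : ℝ) : Summable (fun j : ℕ => if l j < x then l j else 0) := by
  refine Summable.of_nonneg_of_le (fun j => ?_) (fun j => ?_) h.sum
  · split_ifs
    · exact (h.pos j).le
    · exact le_refl 0
  · split_ifs
    · exact le_refl _
    · exact (h.pos j).le

theorem key1 {l : ℕ → ℝ} (h : Hyp l) {x : ℝ} (hx : 0 < x) (j : ℕ) : x ≤ l j ↔ j < J l x := by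
  classical
  have ht : Tendsto l atTop (𝓝 0) := h.sum.tendsto_atTop_zero
  have hev : ∃ n, ¬ (x ≤ l n) := by
    have := (ht.eventually (gt_mem_nhds hx)).exists
    obtain ⟨n, hn⟩ := this
    exact ⟨n, not_le.mpr hn⟩
  have hset : {j : ℕ | x ≤ l j} = Set.Iio (Nat.find hev) := by
    ext i
    constructor
    · intro hi
      by_contra hc
      have hc' : Nat.find hev ≤ i := not_lt.mp hc
      exact Nat.find_spec hev (le_trans hi (h.anti hc'))
    · intro hi
      have := Nat.find_min hev hi
      exact not_not.mp this
  have hJ : J l x = Nat.find hev := by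
    unfold J
    rw [hset]
    have : (Set.Iio (Nat.find hev)) = ((Finset.range (Nat.find hev) : Finset ℕ) : Set ℕ) := by
      ext; simp
    rw [this, Set.ncard_coe_finset, Finset.card_range]
  rw [hJ]
  have : j ∈ {j : ℕ | x ≤ l j} ↔ j ∈ Set.Iio (Nat.find hev) := by rw [hset]
  exact this

/-- FS1 -/
theorem t_BAS : S_BAS := by
  intro l h
  refine ⟨fun x hx j => key1 h hx j, ?_, ?_, ?_⟩
  · intro x hx
    have hfin : HasSum (fun j : ℕ => if j < J l x then x else 0) (x * (J l x : ℝ)) := by
      have : HasSum (fun j : ℕ => if j < J l x then x else 0)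
          (∑ b ∈ Finset.range (J l x), (if b < J l x then x else 0)) :=
        hasSum_sum_of_ne_finset_zero (fun j hj => by
          rw [Finset.mem_range] at hj
          exact if_neg hj)
      have e : ∑ b ∈ Finset.range (J l x), (if b < J l x then x else 0) = x * (J l x : ℝ) := by
        rw [Finset.sum_congr rfl (fun b hb => if_pos (Finset.mem_range.mp hb)), Finset.sum_const,
          Finset.card_range, nsmul_eq_mul, mul_comm]
      rwa [e] at this
    have hs := hfin.add (sumV h x).hasSum
    have hc : ∀ j : ℕ, (if j < J l x then x else 0) + (if l j < x then l j else 0) =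
        min (l j) x := by
      intro j
      by_cases hj : j < J l x
      · have := (key1 h hx j).mpr hj
        rw [if_pos hj, if_neg (not_lt.mpr this), min_eq_right this, add_zero]
      · have h2 : l j < x := not_le.mp (fun h' => hj ((key1 h hx j).mp h'))
        rw [if_neg hj, if_pos h2, min_eq_left h2.le, zero_add]
    unfold S V
    rw [← hs.tsum_eq]
    exact tsum_congr fun j => (hc j).symm
  · intro x
    unfold V
    refine tsum_nonneg fun j => ?_
    split_ifs
    · exact (h.pos j).le
    · exact le_refl 0
  · intro x y hxy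
    unfold V
    refine (sumV h x).tsum_le_tsum (fun j => ?_) (sumV h y)
    by_cases h1 : l j < x
    · rw [if_pos h1, if_pos (lt_of_lt_of_le h1 hxy)]
    · rw [if_neg h1]
      split_ifs
      · exact (h.pos j).le
      · exact le_refl 0

end Pool.Agent.Q137.FS
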