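import Pool.Agent.Q62.FS.Stm

/-! Project FS: FS2. -/

set_option autoImplicit false

namespace Pool.Agent.Q137.FS

open Filter Topology Set Pool.Agent.Q62.FS

theorem sumMin {l : ℕ → ℝ} (h : Hyp l) {x : ℝ} (hx : 0 < x) :
    Summable (fun j : ℕ => min (l j) x) :=
  Summable.of_nonneg_of_le (fun j => le_min (h.pos j).le hx.le) (fun j => min_le_left _ _) h.sum

/-- FS2 -/
theorem t_CON : S_CON := by
  intro hB l h x y hx hxy
  obtain ⟨h1, -⟩ := hB l h
  have hy : 0 < y := lt_of_lt_of_le hx hxy
  have hsx := sumMin h hx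
  have hsy := sumMin h hy
  have hdiff : S l y - S l x = ∑' j : ℕ, (min (l j) y - min (l j) x) := by
    unfold S
    rw [hsy.tsum_sub hsx]
  have hsd : Summable (fun j : ℕ => min (l j) y - min (l j) x) := hsy.sub hsx
  have hnn : ∀ j : ℕ, 0 ≤ min (l j) y - min (l j) x := fun j =>
    sub_nonneg.mpr (min_le_min_left _ hxy)
  have hub : ∀ j : ℕ, min (l j) y - min (l j) x ≤ y - x := by
    intro j
    rcases le_total (l j) x with h2 | h2
    · rw [min_eq_left h2, min_eq_left (h2.trans hxy)]; linarith
    · rw [min_eq_right h2]; linarith [min_le_right (l j) y]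
  rw [hdiff]
  constructor
  · have e : ∑ j ∈ Finset.range (J l y), (min (l j) y - min (l j) x) =
        (y - x) * (J l y : ℝ) := by
      rw [Finset.sum_congr rfl (g := fun _ => y - x) (fun j hj => ?_), Finset.sum_const,
        Finset.card_range, nsmul_eq_mul, mul_comm]
      have h3 := (h1 y hy j).mpr (Finset.mem_range.mp hj)
      rw [min_eq_right h3, min_eq_right (hxy.trans h3)]
    rw [← e]
    exact hsd.sum_le_tsum _ (fun j _ => hnn j)
  · have e : ∑' j : ℕ, (min (l j) y - min (l j) x) =
        ∑ j ∈ Finset.range (J l x), (min (l j) y - min (l j) x) := by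
      apply tsum_eq_sum
      intro j hj
      have h3 : l j < x := not_le.mp fun h' => hj (Finset.mem_range.mpr ((h1 x hx j).mp h'))
      rw [min_eq_left h3.le, min_eq_left (h3.le.trans hxy), sub_self]
    rw [e]
    refine (Finset.sum_le_sum (fun j _ => hub j)).trans ?_
    rw [Finset.sum_const, Finset.card_range, nsmul_eq_mul, mul_comm]

end Pool.Agent.Q137.FS
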