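import Pool.Agent.Q62.FS.Stm

/-! Project FS: FS17. -/

set_option autoImplicit false

namespace Pool.Agent.Q137.FS

open Filter Topology Set Pool.Agent.Q62.FS

/-- FS17 -/
theorem t_DIR : S_DIR := by
  intro J S V N d L A hd0 hd1 hL hJ hS
  have h1d : 0 < 1 - d := by linarith
  have hxd : ∀ x : ℝ, 0 < x → x * x ^ (d - 1) = x ^ d := by
    intro x hx
    rw [← Real.rpow_one_add' hx.le (by linarith)]
    congr 1; ring
  have hV : Tendsto (fun x : ℝ => V x * x ^ (d - 1)) (𝓝[>] 0) (𝓝 (L / (1 - d) - L)) := by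
    refine (hS.sub hJ).congr' ?_
    filter_upwards [self_mem_nhdsWithin] with x hx
    have hx0 : (0 : ℝ) < x := hx
    rw [A.sv x hx0, ← hxd x hx0]
    ring
  have hQ : 0 < L / (1 - d) - L := by
    have : L / (1 - d) - L = L * d / (1 - d) := by field_simp; ring
    rw [this]; positivity
  rw [tendsto_order]
  constructor
  · intro a ha
    set Q : ℝ := L / (1 - d) - L with hQd
    -- choose e
    set e : ℝ := min (Q / 2) ((L / (1 - d) - a) / 2) with he
    have he0 : 0 < e := lt_min (by linarith) (by linarith)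
    have he1 : e ≤ Q / 2 := min_le_left _ _
    have he2 : e ≤ (L / (1 - d) - a) / 2 := min_le_right _ _
    have hVe : ∀ᶠ x in 𝓝[>] (0 : ℝ), Q - e < V x * x ^ (d - 1) :=
      hV.eventually (lt_mem_nhds (by linarith))
    obtain ⟨x0, hx00, hx0⟩ := (mem_nhdsGT_iff_exists_Ioo_subset).mp hVe
    have hx00' : (0 : ℝ) < x0 := hx00
    have hpow : Tendsto (fun x : ℝ => x ^ d) (𝓝[>] 0) (𝓝 0) := by
      have := (Real.continuousAt_rpow_const (0 : ℝ) d (Or.inr hd0.le)).tendsto
      rw [Real.zero_rpow hd0.ne'] at this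
      exact this.mono_left nhdsWithin_le_nhds
    have hlim : Tendsto (fun x : ℝ => J x * x ^ d + (Q - e) - x ^ d) (𝓝[>] 0)
        (𝓝 (L + (Q - e) - 0)) := (hJ.add_const _).sub hpow
    have hlt : a < L + (Q - e) - 0 := by
      have : L + Q = L / (1 - d) := by rw [hQd]; ring
      linarith
    filter_upwards [hlim.eventually (lt_mem_nhds hlt), Ioo_mem_nhdsGT hx00'] with x hx1 hx2
    obtain ⟨hxp, hxx⟩ := hx2
    refine lt_of_lt_of_le hx1 ?_
    have hc : 0 ≤ (Q - e) * x ^ (-d) := mul_nonneg (by linarith) (Real.rpow_nonneg hxp.le _)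
    have h2 := A.lo x ((Q - e) * x ^ (-d)) hxp hc (fun y hy hyx => ?_)
    · have hp : 0 ≤ x ^ d := Real.rpow_nonneg hxp.le _
      have h3 := mul_le_mul_of_nonneg_right h2 hp
      have h4 : x ^ (-d) * x ^ d = 1 := by
        rw [← Real.rpow_add hxp, neg_add_cancel, Real.rpow_zero]
      have h5 : (J x + (Q - e) * x ^ (-d) - 1) * x ^ d =
          J x * x ^ d + (Q - e) * (x ^ (-d) * x ^ d) - x ^ d := by ring
      rw [h5, h4] at h3
      linarith
    · have h3 : Q - e < V y * y ^ (d - 1) := hx0 ⟨hy, lt_of_le_of_lt hyx hxx⟩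
      have h4 : x ^ (-d) ≤ y ^ (-d) := Real.rpow_le_rpow_of_nonpos hy hyx (by linarith)
      have h5 : (Q - e) * y ^ (1 - d) ≤ V y := by
        have hp : 0 < y ^ (1 - d) := Real.rpow_pos_of_pos hy _
        have h6 := mul_le_mul_of_nonneg_right h3.le hp.le
        have h7 : y ^ (d - 1) * y ^ (1 - d) = 1 := by
          rw [← Real.rpow_add hy]
          have : d - 1 + (1 - d) = 0 := by ring
          rw [this, Real.rpow_zero]
        have h8 : V y * y ^ (d - 1) * y ^ (1 - d) = V y * (y ^ (d - 1) * y ^ (1 - d)) := by ring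
        rw [h8, h7, mul_one] at h6
        exact h6
      have h9 : y ^ (-d) * y = y ^ (1 - d) := by
        rw [mul_comm, ← Real.rpow_one_add' hy.le (by linarith)]
        rfl
      calc (Q - e) * x ^ (-d) * y ≤ (Q - e) * y ^ (-d) * y := by
            refine mul_le_mul_of_nonneg_right (mul_le_mul_of_nonneg_left h4 (by linarith)) hy.le
        _ = (Q - e) * y ^ (1 - d) := by rw [mul_assoc, h9]
        _ ≤ V y := h5
  · intro a ha
    filter_upwards [hS.eventually (gt_mem_nhds ha), self_mem_nhdsWithin] with x hx1 hx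
    have hx0 : (0 : ℝ) < x := hx
    refine lt_of_le_of_lt ?_ hx1
    have hp : 0 ≤ x ^ (d - 1) := Real.rpow_nonneg hx0.le _
    have h3 := mul_le_mul_of_nonneg_right (A.up x hx0) hp
    rw [mul_assoc, hxd x hx0] at h3
    exact h3

end Pool.Agent.Q137.FS
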