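import Pool.Agent.Q62.FS.Stm

/-! Project FS: FS9. -/

set_option autoImplicit false

namespace Pool.Agent.Q137.FS

open Filter Topology Set Pool.Agent.Q62.FS

/-- FS9 -/
theorem t_JTL : S_JTL := by
  intro hB l h d q hd hq hT
  obtain ⟨h1, -⟩ := hB l h
  have hl0 : Tendsto l atTop (𝓝 0) := h.sum.tendsto_atTop_zero
  have hl : Tendsto l atTop (𝓝[>] 0) :=
    tendsto_nhdsWithin_iff.mpr ⟨hl0, Eventually.of_forall fun j => h.pos j⟩
  -- upper bound
  have hup := hT.comp hl
  -- points slightly above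
  set c : ℕ → ℝ := fun j => 1 + 1 / ((j : ℝ) + 1) with hc
  have hcp : ∀ j, 1 < c j := fun j => by
    have : 0 < 1 / ((j : ℝ) + 1) := by positivity
    show 1 < 1 + 1 / ((j : ℝ) + 1)
    linarith
  have hcT : Tendsto c atTop (𝓝 1) := by
    have := (tendsto_one_div_add_atTop_nhds_zero_nat (𝕜 := ℝ)).const_add 1
    rwa [add_zero] at this
  have hcl0 : Tendsto (fun j => c j * l j) atTop (𝓝 0) := by
    have := hcT.mul hl0
    rwa [one_mul] at this
  have hcl : Tendsto (fun j => c j * l j) atTop (𝓝[>] 0) :=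
    tendsto_nhdsWithin_iff.mpr ⟨hcl0, Eventually.of_forall fun j =>
      mul_pos (by linarith [hcp j]) (h.pos j)⟩
  have hlo0 := hT.comp hcl
  have hcd : Tendsto (fun j => (c j) ^ (-d)) atTop (𝓝 1) := by
    have := hcT.rpow_const (p := -d) (Or.inl one_ne_zero)
    rwa [Real.one_rpow] at this
  have hlo := hlo0.mul hcd
  rw [mul_one] at hlo
  have ha : Tendsto (fun j : ℕ => ((j : ℝ) + 1) * (l j) ^ d) atTop (𝓝 (q ^ d)) := by
    refine tendsto_of_tendsto_of_tendsto_of_le_of_le hlo hup (fun j => ?_) (fun j => ?_)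
    · simp only [Function.comp]
      have hcj : 0 < c j := by linarith [hcp j]
      have e : (c j * l j) ^ d * (c j) ^ (-d) = (l j) ^ d := by
        rw [Real.mul_rpow hcj.le (h.pos j).le, Real.rpow_neg hcj.le]
        have : (c j) ^ d ≠ 0 := (Real.rpow_pos_of_pos hcj d).ne'
        field_simp
      rw [mul_assoc, e]
      refine mul_le_mul_of_nonneg_right ?_ (Real.rpow_nonneg (h.pos j).le _)
      have h3 : J l (c j * l j) ≤ j := by
        by_contra hcon
        push Not at hcon
        have h4 := (h1 (c j * l j) (mul_pos hcj (h.pos j)) j).mpr hcon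
        nlinarith [hcp j, h.pos j]
      have : (J l (c j * l j) : ℝ) ≤ (j : ℝ) := by exact_mod_cast h3
      linarith
    · simp only [Function.comp]
      refine mul_le_mul_of_nonneg_right ?_ (Real.rpow_nonneg (h.pos j).le _)
      have h3 : j < J l (l j) := (h1 (l j) (h.pos j) j).mp (le_refl _)
      exact_mod_cast h3
  have h5 := ha.rpow_const (p := 1 / d) (Or.inl (Real.rpow_pos_of_pos hq d).ne')
  rw [← Real.rpow_mul hq.le, mul_one_div_cancel hd.ne', Real.rpow_one] at h5
  refine h5.congr fun j => ?_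
  have hj : (0 : ℝ) ≤ (j : ℝ) + 1 := by positivity
  rw [Real.mul_rpow hj (Real.rpow_nonneg (h.pos j).le _), ← Real.rpow_mul (h.pos j).le,
    mul_one_div_cancel hd.ne', Real.rpow_one]
  ring

end Pool.Agent.Q137.FS
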