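import Pool.Agent.Q62.FS.Stm

/-! Project FS: FS8. -/

set_option autoImplicit false

namespace Pool.Agent.Q137.FS

open Filter Topology Set Pool.Agent.Q62.FS

/-- FS8 -/
theorem t_LTJ : S_LTJ := by
  intro hB l h d q hd hq hT
  obtain ⟨h1, -⟩ := hB l h
  -- a j = (j+1) (l j)^d
  have ha : Tendsto (fun j : ℕ => ((j : ℝ) + 1) * (l j) ^ d) atTop (𝓝 (q ^ d)) := by
    have h2 := hT.rpow_const (p := d) (Or.inl hq.ne')
    refine h2.congr fun j => ?_
    have hj : (0 : ℝ) ≤ (j : ℝ) + 1 := by positivity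
    rw [Real.mul_rpow (h.pos j).le (Real.rpow_nonneg hj _), ← Real.rpow_mul hj,
      one_div_mul_cancel hd.ne', Real.rpow_one]
    ring
  have hJ : Tendsto (fun x : ℝ => J l x) (𝓝[>] 0) atTop := by
    rw [tendsto_atTop]
    intro m
    filter_upwards [Ioo_mem_nhdsGT (h.pos m)] with x hx
    exact ((h1 x hx.1 m).mp hx.2.le).le
  have hup : Tendsto (fun n : ℕ => (n : ℝ) * (l (n - 1)) ^ d) atTop (𝓝 (q ^ d)) := by
    have h2 := ha.comp (tendsto_sub_atTop_nat 1)
    refine h2.congr' ?_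
    filter_upwards [eventually_ge_atTop 1] with n hn
    simp only [Function.comp]
    rw [Nat.cast_sub hn]
    push_cast
    ring
  have hlo : Tendsto (fun n : ℕ => (n : ℝ) * (l n) ^ d) atTop (𝓝 (q ^ d)) := by
    have h2 : Tendsto (fun n : ℕ => (n : ℝ) / ((n : ℝ) + 1)) atTop (𝓝 1) :=
      tendsto_natCast_div_add_atTop 1
    have h3 := h2.mul ha
    rw [one_mul] at h3
    refine h3.congr fun n => ?_
    have : (n : ℝ) + 1 ≠ 0 := by positivity
    field_simp
  refine tendsto_of_tendsto_of_tendsto_of_le_of_le' (hlo.comp hJ) (hup.comp hJ) ?_ ?_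
  · filter_upwards [self_mem_nhdsWithin] with x hx
    have hx0 : (0 : ℝ) < x := hx
    simp only [Function.comp]
    refine mul_le_mul_of_nonneg_left ?_ (Nat.cast_nonneg _)
    refine Real.rpow_le_rpow (h.pos _).le ?_ hd.le
    by_contra hc
    push Not at hc
    exact lt_irrefl _ ((h1 x hx0 (J l x)).mp hc.le)
  · filter_upwards [self_mem_nhdsWithin, hJ.eventually_ge_atTop 1] with x hx hn
    have hx0 : (0 : ℝ) < x := hx
    simp only [Function.comp]
    refine mul_le_mul_of_nonneg_left ?_ (Nat.cast_nonneg _)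
    refine Real.rpow_le_rpow hx0.le ?_ hd.le
    exact (h1 x hx0 (J l x - 1)).mpr (by omega)

end Pool.Agent.Q137.FS
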