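import Pool.Agent.Q62.FS.Stm

/-! Project FS: FS12. -/

set_option autoImplicit false

namespace Pool.Agent.Q137.FS

open Filter Topology Set Pool.Agent.Q62.FS

theorem quot1 (d : ℝ) : Tendsto (fun t : ℝ => (1 - t ^ (1 - d)) / (1 - t)) (𝓝[<] 1) (𝓝 (1 - d)) := by
  have h1 : HasDerivAt (fun t : ℝ => t ^ (1 - d)) ((1 - d) * 1 ^ (1 - d - 1)) 1 :=
    Real.hasDerivAt_rpow_const (Or.inl one_ne_zero)
  rw [Real.one_rpow, mul_one] at h1
  rw [hasDerivAt_iff_tendsto_slope] at h1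
  have h2 := h1.mono_left (nhdsWithin_mono (1 : ℝ) (s := Set.Iio 1) (t := {1}ᶜ)
    (fun t ht => ne_of_lt ht))
  refine h2.congr' ?_
  filter_upwards [self_mem_nhdsWithin] with t ht
  have ht' : t < 1 := ht
  rw [slope_def_field, Real.one_rpow]
  have e1 : t - 1 ≠ 0 := by linarith
  have e2 : 1 - t ≠ 0 := by linarith
  rw [div_eq_div_iff e1 e2]
  ring

theorem quot2 (d : ℝ) :
    Tendsto (fun t : ℝ => (t ^ (d - 1) - 1) / (1 / t - 1)) (𝓝[<] 1) (𝓝 (1 - d)) := by
  have h1 : HasDerivAt (fun t : ℝ => t ^ (d - 1)) ((d - 1) * 1 ^ (d - 1 - 1)) 1 :=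
    Real.hasDerivAt_rpow_const (Or.inl one_ne_zero)
  rw [Real.one_rpow, mul_one] at h1
  rw [hasDerivAt_iff_tendsto_slope] at h1
  have h2 := h1.mono_left (nhdsWithin_mono (1 : ℝ) (s := Set.Iio 1) (t := {1}ᶜ)
    (fun t ht => ne_of_lt ht))
  have h3 : Tendsto (fun t : ℝ => t) (𝓝[<] 1) (𝓝 1) := tendsto_nhdsWithin_of_tendsto_nhds tendsto_id
  have h4 := (h3.mul h2).neg
  have e : -(1 * (d - 1)) = 1 - d := by ring
  rw [e] at h4
  refine h4.congr' ?_
  have hm : Set.Ioo (0 : ℝ) 1 ∈ 𝓝[<] (1 : ℝ) := Ioo_mem_nhdsLT one_pos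
  filter_upwards [hm] with t ht
  obtain ⟨ht0, ht1⟩ := ht
  rw [slope_def_field, Real.one_rpow]
  have e1 : t - 1 ≠ 0 := by linarith
  have e2 : t ≠ 0 := ht0.ne'
  have e3 : 1 / t - 1 ≠ 0 := by
    have : 1 < 1 / t := by rw [lt_div_iff₀ ht0]; linarith
    linarith
  rw [eq_div_iff e3]
  field_simp
  ring

/-- FS12 -/
theorem t_TAU : S_TAU := by
  intro J S d C hd0 hd1 hC hco hS
  have hscale : ∀ t : ℝ, 0 < t → Tendsto (fun x : ℝ => t * x) (𝓝[>] 0) (𝓝[>] 0) := by
    intro t ht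
    refine tendsto_nhdsWithin_iff.mpr ⟨?_, ?_⟩
    · have : Tendsto (fun x : ℝ => t * x) (𝓝 0) (𝓝 (t * 0)) := tendsto_id.const_mul t
      rw [mul_zero] at this
      exact this.mono_left nhdsWithin_le_nhds
    · filter_upwards [self_mem_nhdsWithin] with x hx
      exact mul_pos ht hx
  -- S (t x) x^(d-1) = t^(1-d) s (t x)
  have hsc : ∀ t : ℝ, 0 < t →
      Tendsto (fun x : ℝ => S (t * x) * x ^ (d - 1)) (𝓝[>] 0) (𝓝 (t ^ (1 - d) * C)) := by
    intro t ht
    have h1 := (hS.comp (hscale t ht)).const_mul (t ^ (1 - d))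
    refine h1.congr' ?_
    filter_upwards [self_mem_nhdsWithin] with x hx
    have hx0 : (0 : ℝ) < x := hx
    simp only [Function.comp]
    rw [Real.mul_rpow ht.le hx0.le]
    have e : t ^ (1 - d) * t ^ (d - 1) = 1 := by
      rw [← Real.rpow_add ht]
      have : 1 - d + (d - 1) = 0 := by ring
      rw [this, Real.rpow_zero]
    calc t ^ (1 - d) * (S (t * x) * (t ^ (d - 1) * x ^ (d - 1)))
        = (t ^ (1 - d) * t ^ (d - 1)) * (S (t * x) * x ^ (d - 1)) := by ring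
      _ = _ := by rw [e, one_mul]
  have hxd : ∀ x : ℝ, 0 < x → x * x ^ (d - 1) = x ^ d := by
    intro x hx
    rw [← Real.rpow_one_add' hx.le (by linarith)]
    congr 1; ring
  rw [tendsto_order]
  constructor
  · intro a ha
    have hq := (quot2 d).mul_const C
    obtain ⟨t, ht1, ht2⟩ :=
      ((hq.eventually (lt_mem_nhds ha)).and (Ioo_mem_nhdsLT (one_pos : (0 : ℝ) < 1))).exists
    obtain ⟨ht0, ht3⟩ := ht2
    have hti : 0 < 1 / t := by positivity
    have h1t : 0 < 1 / t - 1 := by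
      have : 1 < 1 / t := by rw [lt_div_iff₀ ht0]; linarith
      linarith
    have hlim := ((hsc (1 / t) hti).sub hS).div_const (1 / t - 1)
    have e : ((1 / t) ^ (1 - d) * C - C) / (1 / t - 1) = (t ^ (d - 1) - 1) / (1 / t - 1) * C := by
      have : (1 / t) ^ (1 - d) = t ^ (d - 1) := by
        rw [one_div, Real.inv_rpow ht0.le, ← Real.rpow_neg ht0.le]
        congr 1; ring
      rw [this]; ring
    rw [e] at hlim
    filter_upwards [hlim.eventually (lt_mem_nhds ht1), self_mem_nhdsWithin] with x hx1 hx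
    have hx0 : (0 : ℝ) < x := hx
    refine lt_of_lt_of_le hx1 ?_
    rw [div_le_iff₀ h1t]
    have h2 := (hco x (1 / t * x) hx0 (by nlinarith)).2
    have hp : 0 ≤ x ^ (d - 1) := Real.rpow_nonneg hx0.le _
    have h3 := mul_le_mul_of_nonneg_right h2 hp
    have h4 : (1 / t * x - x) * J x * x ^ (d - 1) = J x * x ^ d * (1 / t - 1) := by
      rw [← hxd x hx0]; ring
    rw [h4] at h3
    linarith
  · intro a ha
    have hq := (quot1 d).mul_const C
    obtain ⟨t, ht1, ht2⟩ :=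
      ((hq.eventually (gt_mem_nhds ha)).and (Ioo_mem_nhdsLT (one_pos : (0 : ℝ) < 1))).exists
    obtain ⟨ht0, ht3⟩ := ht2
    have h1t : 0 < 1 - t := by linarith
    have hlim := (hS.sub (hsc t ht0)).div_const (1 - t)
    have e : (C - t ^ (1 - d) * C) / (1 - t) = (1 - t ^ (1 - d)) / (1 - t) * C := by ring
    rw [e] at hlim
    filter_upwards [hlim.eventually (gt_mem_nhds ht1), self_mem_nhdsWithin] with x hx1 hx
    have hx0 : (0 : ℝ) < x := hx
    refine lt_of_le_of_lt ?_ hx1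
    rw [le_div_iff₀ h1t]
    have h2 := (hco (t * x) x (mul_pos ht0 hx0) (by nlinarith)).1
    have hp : 0 ≤ x ^ (d - 1) := Real.rpow_nonneg hx0.le _
    have h3 := mul_le_mul_of_nonneg_right h2 hp
    have h4 : (x - t * x) * J x * x ^ (d - 1) = J x * x ^ d * (1 - t) := by
      rw [← hxd x hx0]; ring
    rw [h4] at h3
    linarith

end Pool.Agent.Q137.FS
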