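import Pool.Agent.Q62.FS.Stm

/-! Project FS: FS4. -/

set_option autoImplicit false

namespace Pool.Agent.Q137.FS

open Filter Topology Set Pool.Agent.Q62.FS

/-- FS4 -/
theorem t_UPP : S_UPP := by
  classical
  intro l h x n hx hs
  obtain ⟨g, hg⟩ := hs
  have hmin : Summable (fun j : ℕ => min (l j) x) :=
    Summable.of_nonneg_of_le (fun j => le_min (h.pos j).le hx.le) (fun j => min_le_left _ _) h.sum
  have hsm : ∀ i : Fin n, Summable (fun j : ℕ => if g j = i then min (l j) x else 0) := by
    intro i
    refine Summable.of_nonneg_of_le (fun j => ?_) (fun j => ?_) hmin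
    · split_ifs
      · exact le_min (h.pos j).le hx.le
      · exact le_refl 0
    · split_ifs
      · exact le_refl _
      · exact le_min (h.pos j).le hx.le
  have hi : ∀ i : Fin n, x ≤ ∑' j : ℕ, if g j = i then min (l j) x else 0 := by
    intro i
    by_cases hex : ∃ j, g j = i ∧ x ≤ l j
    · obtain ⟨j, hj, hxj⟩ := hex
      have := (hsm i).le_tsum j (fun k _ => by
        split_ifs
        · exact le_min (h.pos k).le hx.le
        · exact le_refl 0)
      simp only [if_pos hj, min_eq_right hxj] at this
      exact this
    · have e : ∀ j : ℕ, (if g j = i then min (l j) x else 0) = if g j = i then l j else 0 := by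
        intro j
        split_ifs with hj
        · have : l j < x := not_le.mp fun h' => hex ⟨j, hj, h'⟩
          exact min_eq_left this.le
        · rfl
      rw [tsum_congr e]
      exact hg i
  have hsum : ∑ i : Fin n, ∑' j : ℕ, (if g j = i then min (l j) x else 0) = S l x := by
    rw [← Summable.tsum_finsetSum (fun i _ => hsm i)]
    unfold S
    refine tsum_congr fun j => ?_
    rw [Finset.sum_ite_eq]
    simp
  rw [← hsum]
  calc (n : ℝ) * x = ∑ _i : Fin n, x := by simp
    _ ≤ _ := Finset.sum_le_sum fun i _ => hi i

end Pool.Agent.Q137.FS
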